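import Pool.Agent.Work.Monodromy.StatementB
import Pool.Agent.Work.Monodromy.Statement1
import Pool.Agent.Work.Monodromy.Statement2
import Pool.Agent.Work.Monodromy.Statement3

/-!
# Definitions used in the statements: the monodromy conjecture for one fixed Hodge measure
-/

namespace Pool.Agent.Mono

open MvPolynomial

/-- the monodromy conjecture for `f` and the topological zeta function computed with the Hodge
measure `E` (for `E(S) = E(S; u, 1)`: the topological zeta function of `f`) -/
def MonodromyConjectureWith (E : HodgeMeasure) {n : ℕ} (f : MvPolynomial (Fin n) ℂ) : Prop :=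
  ∀ R : RatFunc ℚ, IsTopologicalZeta E f R → ∀ s : ℂ, Polynomial.aeval s R.denom = 0 →
    IsMonodromyEigenvalue f (Complex.exp (2 * Real.pi * Complex.I * s))

/-- the monodromy conjecture for `f` and the `e`-twisted topological zeta function computed with
the Hodge measure `E` -/
def TwistedMonodromyConjectureWith (E : HodgeMeasure) {n : ℕ} (e : ℕ)
    (f : MvPolynomial (Fin n) ℂ) : Prop :=
  ∀ R : RatFunc ℚ, IsTwTopZeta E f e R → ∀ s : ℂ, Polynomial.aeval s R.denom = 0 →
    IsMonodromyEigenvalue f (Complex.exp (2 * Real.pi * Complex.I * s))

end Pool.Agent.Mono
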