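import Pool.Agent.Work.Monodromy.Final3
import Pool.Agent.Work.Monodromy_helper63.StatementE

/-!
# The reduction to small cubic polynomials, for one fixed Hodge measure
-/

set_option linter.unusedSectionVars false

namespace Pool.Agent.Mono

open MvPolynomial

namespace FixE

variable {ι κ : Type} [Fintype ι] [Fintype κ]

/-- the monodromy conjecture for `f` and the measure `P` -/
def MCE (P : HodgeMeasure) (f : MvPolynomial ι ℂ) : Prop :=
  ∀ R : RatFunc ℚ, IsTopZeta P f 1 R → ∀ s : ℂ,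
    Polynomial.aeval s R.denom = 0 → IsEigenvalue f (Complex.exp (2 * Real.pi * Complex.I * s))

/-- the twisted monodromy conjecture for `f` and the measure `P` -/
def MCEtw (P : HodgeMeasure) (e : ℕ) (f : MvPolynomial ι ℂ) : Prop :=
  ∀ R : RatFunc ℚ, IsTwTopZeta P f e R → ∀ s : ℂ,
    Polynomial.aeval s R.denom = 0 → IsEigenvalue f (Complex.exp (2 * Real.pi * Complex.I * s))

open SSAux in
theorem step (P : HodgeMeasure) (f : MvPolynomial ι ℂ) (hf : f.totalDegree ≠ 0)
    (hMC : MCE P (sus f)) : MCE P f := by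
  classical
  intro R hR s hs
  by_cases h1 : s = 1 ∨ s = -1
  · exact eig_int f hf s h1
  push Not at h1
  have h2 := stmt_SP.2 R s h1.1 h1.2 hs
  have h3 := hMC (susR R) (all_SL ι f P R hR).1 (s - 1) h2
  rw [exp_sub_one] at h3
  exact stmt_SE ι f _ hf h3

open SSAux in
theorem stepTw (P : HodgeMeasure) (f : MvPolynomial ι ℂ) (hf : f.totalDegree ≠ 0) (e : ℕ)
    (he : 1 ≤ e) (hMC : MCEtw P e (sus f)) : MCEtw P e f := by
  classical
  have hSL := all_SL
  intro R hR s hs
  by_cases hint : s = 1 ∨ s = -1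
  · exact eig_int f hf s hint
  push Not at hint
  obtain ⟨r, hr, hR'⟩ := hR
  have hpos : ∀ d ∈ e.divisors, 1 ≤ d := fun d hd => Nat.pos_of_mem_divisors hd
  have h1e : 1 ∈ e.divisors := Nat.one_mem_divisors.2 (by omega)
  have hq : ∀ d, ∃ q : ℚ, d ∈ e.divisors → IsTopZeta P f d (r d + RatFunc.C q) := by
    intro d
    by_cases hd : d ∈ e.divisors
    · obtain ⟨q, hq⟩ := isTopZeta_of1 P f d (r d) (hr d hd)
      exact ⟨q, fun _ => hq⟩
    · exact ⟨0, fun h => absurd h hd⟩
  choose q hq using hq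
  set R1 : RatFunc ℚ := r 1 + RatFunc.C (q 1) with hR1
  have hsus : ∀ d ∈ e.divisors,
      IsTopZeta P (sus f) d (susR R1 + shR (r d + RatFunc.C (q d) - R1)) := fun d hd =>
    (hSL ι f P R1 (hq 1 h1e)).2 d _ (hpos d hd) (hq d hd)
  have hq2 : ∀ d, ∃ q' : ℚ, d ∈ e.divisors → IsLim (zetaSer1 P.rat (RatFunc.X)⁻¹ (sus f) d)
      (susR R1 + shR (r d + RatFunc.C (q d) - R1) + RatFunc.C q') := by
    intro d
    by_cases hd : d ∈ e.divisors
    · obtain ⟨q', hq'⟩ := isLim_zetaSer1 P (sus f) d _ (hsus d hd)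
      exact ⟨q', fun _ => hq'⟩
    · exact ⟨0, fun h => absurd h hd⟩
  choose q' hq' using hq2
  have htot : ((e.totient : ℚ)) ≠ 0 := by exact_mod_cast (Nat.totient_pos.2 he).ne'
  set S : RatFunc ℚ := ∑ d ∈ e.divisors,
    RatFunc.C ((ArithmeticFunction.moebius (e / d) : ℤ) : ℚ) *
      (susR R1 + shR (r d + RatFunc.C (q d) - R1) + RatFunc.C (q' d)) with hS
  have hT : IsTwTopZeta P (sus f) e (RatFunc.C ((e.totient : ℚ)⁻¹) * S) := by
    refine ⟨_, fun d hd => hq' d hd, ?_⟩
    rw [← mul_assoc, ← map_mul, mul_inv_cancel₀ htot, map_one, one_mul]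
  -- the Moebius sum of the constants
  set M : RatFunc ℚ := ∑ d ∈ e.divisors,
    RatFunc.C ((ArithmeticFunction.moebius (e / d) : ℤ) : ℚ) with hM
  set c : ℚ := ∑ d ∈ e.divisors,
    ((ArithmeticFunction.moebius (e / d) : ℤ) : ℚ) * (q d + q' d) with hc
  have hSum : S = M * (susR R1 - shR R1) + RatFunc.C (e.totient : ℚ) * shR R + RatFunc.C c := by
    have h1 : RatFunc.C (e.totient : ℚ) * shR R = shR (RatFunc.C (e.totient : ℚ) * R) := by
      rw [map_mul, shR_C]
    rw [h1, hR', map_sum, hM, Finset.sum_mul, hc, map_sum, ← Finset.sum_add_distrib,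
      ← Finset.sum_add_distrib, hS]
    refine Finset.sum_congr rfl fun d _ => ?_
    simp only [map_mul, map_add, map_sub, shR_C]
    ring
  have hMval : (e = 1 ∧ M = 1) ∨ (e ≠ 1 ∧ M = 0) := by
    have h1 : ∑ d ∈ e.divisors, ArithmeticFunction.moebius (e / d) = if e = 1 then 1 else 0 := by
      rw [Nat.sum_div_divisors e fun d => ArithmeticFunction.moebius d]
      have h0 := congrArg (fun g : ArithmeticFunction ℤ => g e)
        ArithmeticFunction.moebius_mul_coe_zeta
      simp only [ArithmeticFunction.coe_mul_zeta_apply, ArithmeticFunction.one_apply] at h0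
      exact h0
    have h2 : M = RatFunc.C (((if e = 1 then 1 else 0 : ℤ)) : ℚ) := by
      rw [← h1, hM]
      push_cast
      rw [map_sum]
    by_cases he1 : e = 1
    · left
      refine ⟨he1, ?_⟩
      rw [h2, if_pos he1]
      simp
    · right
      refine ⟨he1, ?_⟩
      rw [h2, if_neg he1]
      simp
  have hpole : Polynomial.aeval (s - 1) (RatFunc.C ((e.totient : ℚ)⁻¹) * S).denom = 0 := by
    apply pole_C_mul (inv_ne_zero htot)
    rw [hSum]
    apply pole_add_C
    rcases hMval with ⟨he1, hM1⟩ | ⟨he1, hM0⟩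
    · subst he1
      have h1 : r 1 = R := by
        have := hR'
        simp at this
        exact this.symm
      have h2 : M * (susR R1 - shR R1) + RatFunc.C ((Nat.totient 1 : ℕ) : ℚ) * shR R =
          susR R1 + RatFunc.C (-(q 1)) := by
        rw [hM1, hR1, h1, map_add, shR_C]
        simp
        ring
      rw [h2]
      apply pole_add_C
      apply stmt_SP.2 R1 s hint.1 hint.2
      rw [hR1, h1]
      exact pole_add_C hs
    · rw [hM0, zero_mul, zero_add]
      exact pole_C_mul htot (stmt_SP.1 R s hs)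
  have h3 := hMC _ hT (s - 1) hpole
  rw [exp_sub_one] at h3
  exact stmt_SE ι f _ hf h3

variable (α : MvPolynomial ι ℂ ≃ₐ[ℂ] MvPolynomial κ ℂ) (f : MvPolynomial ι ℂ)
  (hc : Fintype.card ι = Fintype.card κ)

include hc

theorem MCE_iff (P : HodgeMeasure) : MCE P (α f) ↔ MCE P f := by
  unfold MCE
  simp only [Cub.top_iff stmt_SI α f hc, Cub.eig_iff stmt_SI α f hc]

theorem MCEtw_iff (P : HodgeMeasure) (e : ℕ) : MCEtw P e (α f) ↔ MCEtw P e f := by
  unfold MCEtw
  simp only [Cub.tw_iff stmt_SI α f hc, Cub.eig_iff stmt_SI α f hc]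

omit hc

theorem MCE_susN (P : HodgeMeasure) {f : MvPolynomial ι ℂ} (h : f.totalDegree ≠ 0) (N : ℕ) :
    (MCE P (susN N f) → MCE P f) ∧ ∀ e : ℕ, 1 ≤ e → MCEtw P e (susN N f) → MCEtw P e f := by
  classical
  induction N with
  | zero =>
    have hc : Fintype.card (ι ⊕ (Fin 0 × Bool)) = Fintype.card ι := by simp
    have h1 := MCE_iff (renameEquiv ℂ (Equiv.sumEmpty ι (Fin 0 × Bool))) (susN 0 f) hc P
    have h2 := MCEtw_iff (renameEquiv ℂ (Equiv.sumEmpty ι (Fin 0 × Bool))) (susN 0 f) hc P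
    rw [Cub.rename_susZero] at h1
    simp only [Cub.rename_susZero] at h2
    exact ⟨h1.2, fun e _ => (h2 e).2⟩
  | succ N ih =>
    have hc : Fintype.card (ι ⊕ (Fin (N + 1) × Bool)) =
        Fintype.card ((ι ⊕ (Fin N × Bool)) ⊕ Bool) := Fintype.card_congr (Cub.eqv ι N)
    have h1 := MCE_iff (renameEquiv ℂ (Cub.eqv ι N)) (susN (N + 1) f) hc P
    have h2 := MCEtw_iff (renameEquiv ℂ (Cub.eqv ι N)) (susN (N + 1) f) hc P
    rw [Cub.rename_susN] at h1
    simp only [Cub.rename_susN] at h2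
    have g1 := step P (susN N f) (Cub.totalDegree_susN N h)
    have g2 := stepTw P (susN N f) (Cub.totalDegree_susN N h)
    exact ⟨fun hm => ih.1 (g1 (h1.2 hm)), fun e he hm => ih.2 e he (g2 e he ((h2 e).2 hm))⟩

theorem mce_iff (P : HodgeMeasure) {n : ℕ} (f : MvPolynomial (Fin n) ℂ) :
    MonodromyConjectureWith P f ↔ MCE P f := by
  unfold MonodromyConjectureWith MCE
  simp only [isTopologicalZeta_iff, isMonodromyEigenvalue_iff]

theorem mcetw_iff (P : HodgeMeasure) {n : ℕ} (e : ℕ) (f : MvPolynomial (Fin n) ℂ) :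
    TwistedMonodromyConjectureWith P e f ↔ MCEtw P e f := by
  unfold TwistedMonodromyConjectureWith MCEtw
  simp only [isMonodromyEigenvalue_iff]

end FixE

open FixE

/-- The reduction to small cubic polynomials, for every fixed Hodge measure. -/
theorem cubic_reduction_with (E : HodgeMeasure) :
    (∀ (n : ℕ) (F : MvPolynomial (Fin n) ℂ), F.totalDegree ≠ 0 → IsSmallCubic F →
      MonodromyConjectureWith E F) ↔
    ∀ (n : ℕ) (f : MvPolynomial (Fin n) ℂ), f.totalDegree ≠ 0 → MonodromyConjectureWith E f := by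
  constructor
  · intro h n f hf
    rw [mce_iff]
    obtain ⟨N, α, hα⟩ := stmt_SR n f
    have hc : Fintype.card (Fin n ⊕ (Fin N × Bool)) = Fintype.card (Fin (n + 2 * N)) := by
      simp; ring
    have h1 := h _ (α (susN N f)) (Cub.totalDegree_alg α (Cub.totalDegree_susN N hf))
      hα.isSmallCubic
    rw [mce_iff] at h1
    exact (MCE_susN E hf N).1 ((MCE_iff α (susN N f) hc E).1 h1)
  · intro h n F hF _
    exact h n F hF

/-- The reduction to small cubic polynomials, for every fixed Hodge measure and every twist. -/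
theorem cubic_reduction_tw_with (E : HodgeMeasure) (e : ℕ) (he : 1 ≤ e) :
    (∀ (n : ℕ) (F : MvPolynomial (Fin n) ℂ), F.totalDegree ≠ 0 → IsSmallCubic F →
      TwistedMonodromyConjectureWith E e F) ↔
    ∀ (n : ℕ) (f : MvPolynomial (Fin n) ℂ), f.totalDegree ≠ 0 →
      TwistedMonodromyConjectureWith E e f := by
  constructor
  · intro h n f hf
    rw [mcetw_iff]
    obtain ⟨N, α, hα⟩ := stmt_SR n f
    have hc : Fintype.card (Fin n ⊕ (Fin N × Bool)) = Fintype.card (Fin (n + 2 * N)) := by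
      simp; ring
    have h1 := h _ (α (susN N f)) (Cub.totalDegree_alg α (Cub.totalDegree_susN N hf))
      hα.isSmallCubic
    rw [mcetw_iff] at h1
    exact (MCE_susN E hf N).2 e he ((MCEtw_iff α (susN N f) hc E e).1 h1)
  · intro h n F hF _
    exact h n F hF

end Pool.Agent.Mono
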